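import Pool.Agent.W312.TP.Stm

/-! Project TP: the four point condition. -/

set_option autoImplicit false

namespace Pool.Agent.W935.TP

open Pool.Agent.W312.TP

theorem proof_FOUR (h1 : PROJ) : FOUR := by
  intro V T hT x y z w
  obtain ⟨q, hq⟩ := hT.1.exists_walk_length_eq_dist x y
  have hqp : q.IsPath := q.isPath_of_length_eq_dist hq
  have hadj : ∀ j < q.length, T.Adj (q.getVert j) (q.getVert (j + 1)) :=
    fun j hj => q.adj_getVert_succ hj
  have hne : ∀ j, j + 2 ≤ q.length → q.getVert j ≠ q.getVert (j + 2) := by
    intro j hj h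
    have := hqp.getVert_injOn (show j ≤ q.length by omega) (show j + 2 ≤ q.length from hj) h
    omega
  obtain ⟨i, hi, hz⟩ := h1 V T hT q.getVert q.length hadj hne z
  obtain ⟨i', hi', hw⟩ := h1 V T hT q.getVert q.length hadj hne w
  have hstep : ∀ k j, j + k ≤ q.length → T.dist (q.getVert j) (q.getVert (j + k)) ≤ k := by
    intro k
    induction k with
    | zero => intro j _; simp
    | succ k ih =>
      intro j hj
      have e1 := ih j (by omega)
      have e2 : T.dist (q.getVert (j + k)) (q.getVert (j + k + 1)) = 1 :=
        SimpleGraph.dist_eq_one_iff_adj.2 (hadj (j + k) (by omega))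
      have e3 := hT.1.dist_triangle (u := q.getVert j) (v := q.getVert (j + k))
        (w := q.getVert (j + k + 1))
      rw [← add_assoc]
      omega
  have z0 := (hz 0 (Nat.zero_le _)).1 (Nat.zero_le _)
  have zL := (hz q.length le_rfl).2 hi
  have w0 := (hw 0 (Nat.zero_le _)).1 (Nat.zero_le _)
  have wL := (hw q.length le_rfl).2 hi'
  rw [q.getVert_zero] at z0 w0
  rw [q.getVert_length] at zL wL
  have hii : T.dist (q.getVert i) (q.getVert i') ≤ (i - i') + (i' - i) := by
    rcases le_total i i' with h | h
    · have := hstep (i' - i) i (by omega)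
      rw [Nat.add_sub_cancel' h] at this
      omega
    · have := hstep (i - i') i' (by omega)
      rw [Nat.add_sub_cancel' h, T.dist_comm] at this
      omega
  have t1 := hT.1.dist_triangle (u := z) (v := q.getVert i) (w := w)
  have t2 := hT.1.dist_triangle (u := q.getVert i) (v := q.getVert i') (w := w)
  rw [T.dist_comm (u := q.getVert i') (v := w)] at t2
  rw [T.dist_comm (u := z) (v := x)] at z0
  rw [T.dist_comm (u := z) (v := y)] at zL
  rw [T.dist_comm (u := w) (v := x)] at w0
  rw [T.dist_comm (u := w) (v := y)] at wL
  rw [le_max_iff]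
  rcases le_total i i' with h | h
  · right; omega
  · left; omega

end Pool.Agent.W935.TP
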